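import Pool.Agent.Q5.SH.Stm

/-! # Project SH (helper5), job TC: the trace is onto modulo `p` if `p` is unramified -/

set_option autoImplicit false
set_option linter.all false

namespace Pool.Agent.Q261.SH

open NumberField IsDedekindDomain Module Pool.Agent.Y18.LC Pool.Agent.Q5.SG Pool.Agent.Q5.SH

open Ideal in
/-- the inertia groups above an unramified prime number are trivial -/
theorem inertia_trivial {p : ℕ} [Fact p.Prime] {K H : Type} [Field K] [NumberField K]
    [Field H] [NumberField H] [Algebra K H] [IsGalois K H] (hU : Unram H p)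
    (Q : Ideal (𝓞 H)) (hQ : Q.IsPrime) (hpQ : (p : 𝓞 H) ∈ Q) (g : Gal(H/K))
    (hg : ∀ x : 𝓞 H, g • x - x ∈ Q) : g = 1 := by
  have hp0' : (p : 𝓞 H) ≠ 0 := by
    exact_mod_cast (Fact.out : p.Prime).ne_zero
  have hQ0 : Q ≠ ⊥ := by
    rintro rfl
    exact hp0' (by simpa using hpQ)
  have hp : (Q.under (𝓞 K)).IsPrime := inferInstance
  have hQp : Q.LiesOver (Q.under (𝓞 K)) := inferInstance
  have hp0 : Q.under (𝓞 K) ≠ ⊥ := under_ne_bot (𝓞 K) hQ0
  have hm1 : (Q.under (𝓞 K)).IsMaximal := hp.isMaximal hp0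
  have hm2 : Q.IsMaximal := hQ.isMaximal hQ0
  have : PerfectField (Q.under (𝓞 K)).ResidueField := by
    have hf : Finite (𝓞 K ⧸ Q.under (𝓞 K)) := finiteQuotientOfFreeOfNeBot _ hp0
    have hf2 : Finite (Q.under (𝓞 K)).ResidueField :=
      Finite.of_surjective _
        (bijective_algebraMap_quotient_residueField (Q.under (𝓞 K))).2
    infer_instance
  have e1 : Nat.card (Q.inertia Gal(H/K)) = Q.ramificationIdx (𝓞 K) := by
    rw [card_inertia_eq_ramificationIdxIn (Q.under (𝓞 K)) Q,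
      ramificationIdxIn_eq_ramificationIdx (Q.under (𝓞 K)) Q Gal(H/K)]
  have h9 : Q.ramificationIdx (𝓞 K) ≤ 1 := by
    have hmap : (Q.under (𝓞 K)).map (algebraMap (𝓞 K) (𝓞 H)) ≠ ⊥ :=
      map_ne_bot_of_ne_bot hp0
    rw [IsDedekindDomain.ramificationIdx_eq_multiplicity (Q.under (𝓞 K)) Q hmap]
    have hfin : FiniteMultiplicity Q
        ((Q.under (𝓞 K)).map (algebraMap (𝓞 K) (𝓞 H))) :=
      FiniteMultiplicity.of_prime_left (Ideal.prime_of_isPrime hQ0 hQ) hmap
    by_contra hcon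
    push Not at hcon
    have h1 : Q ^ 2 ∣ (Q.under (𝓞 K)).map (algebraMap (𝓞 K) (𝓞 H)) :=
      pow_dvd_of_le_multiplicity hcon
    have h2 : (Q.under (𝓞 K)).map (algebraMap (𝓞 K) (𝓞 H)) ∣ Ideal.span {(p : 𝓞 H)} := by
      rw [Ideal.dvd_iff_le, Ideal.span_singleton_le_iff_mem]
      have h3 : (p : 𝓞 K) ∈ Q.under (𝓞 K) := by
        rw [Ideal.mem_comap, map_natCast]
        exact hpQ
      have h4 := Ideal.mem_map_of_mem (algebraMap (𝓞 K) (𝓞 H)) h3
      rwa [map_natCast] at h4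
    obtain ⟨J, hJ⟩ := h1.trans h2
    have h5 : Q * J ≤ Ideal.span {(p : 𝓞 H)} := by
      intro x hx
      refine hU ⟨2, ?_⟩
      rw [hJ]
      have h6 : x ^ 2 ∈ (Q * J) ^ 2 := Ideal.pow_mem_pow hx 2
      rw [mul_pow] at h6
      exact Ideal.mul_mono_right (Ideal.pow_le_self two_ne_zero) h6
    have h6 : Ideal.span {(p : 𝓞 H)} ∣ Q * J := Ideal.dvd_iff_le.2 h5
    have hs0 : Ideal.span {(p : 𝓞 H)} ≠ ⊥ := by
      rw [Ne, Ideal.span_singleton_eq_bot]
      exact hp0'
    have hQJ0 : Q * J ≠ 0 := by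
      intro h7
      apply hs0
      rw [hJ, pow_two, mul_assoc, h7, mul_zero]
      rfl
    rw [hJ, pow_two, mul_assoc] at h6
    obtain ⟨X, hX⟩ := h6
    have h7 : (Q * J) * (Q * X) = (Q * J) * 1 := by
      rw [mul_one]
      conv_rhs => rw [hX]
      ring
    have h8 : Q * X = 1 := mul_left_cancel₀ hQJ0 h7
    have h10 : Q * X = ⊤ := h8.trans Ideal.one_eq_top
    have h11 : Q * X ≤ Q := Ideal.mul_le_left
    rw [h10, top_le_iff] at h11
    exact hQ.ne_top h11
  have hcard : Nat.card (Q.inertia Gal(H/K)) ≤ 1 := by rw [e1]; exact h9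
  haveI : Finite (Q.inertia Gal(H/K)) := inferInstance
  have hsub : Subsingleton (Q.inertia Gal(H/K)) := Finite.card_le_one_iff_subsingleton.1 hcard
  have h11 : (⟨g, fun x => hg x⟩ : Q.inertia Gal(H/K)) = 1 := Subsingleton.elim _ _
  exact congrArg Subtype.val h11

theorem norm_p {p : ℕ} [Fact p.Prime] : ‖(p : ℂ_[p])‖ = (p : ℝ)⁻¹ := by
  have h1 : (p : ℂ_[p]) = algebraMap ℚ_[p] ℂ_[p] (p : ℚ_[p]) := by rw [map_natCast]
  rw [h1, norm_algebraMap', Padic.norm_p]

/-- the trace in the ring of integers -/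
theorem intTrace_eq {K H : Type} [Field K] [NumberField K] [Field H] [NumberField H] [Algebra K H]
    [IsGalois K H] (a : 𝓞 H) :
    algebraMap (𝓞 K) (𝓞 H) (Algebra.intTrace (𝓞 K) (𝓞 H) a) = ∑ h : Gal(H/K), h • a := by
  apply FaithfulSMul.algebraMap_injective (𝓞 H) H
  have h1 := Algebra.algebraMap_intTrace (A := 𝓞 K) (K := K) (L := H) (B := 𝓞 H) a
  have h2 : algebraMap (𝓞 H) H (algebraMap (𝓞 K) (𝓞 H) (Algebra.intTrace (𝓞 K) (𝓞 H) a)) =
      algebraMap K H (algebraMap (𝓞 K) K (Algebra.intTrace (𝓞 K) (𝓞 H) a)) := by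
    rw [← IsScalarTower.algebraMap_apply (𝓞 K) K H, ← IsScalarTower.algebraMap_apply (𝓞 K) (𝓞 H) H]
  rw [h2, h1, trace_eq_sum_automorphisms, map_sum]
  rfl

/-- the trace is onto modulo an unramified prime number -/
theorem trace_onto {p : ℕ} [Fact p.Prime] {K H : Type} [Field K] [NumberField K]
    [Field H] [NumberField H] [Algebra K H] [IsGalois K H] (hU : Unram H p) :
    ∃ (t : 𝓞 H) (c : 𝓞 K), Algebra.intTrace (𝓞 K) (𝓞 H) t = 1 + (p : 𝓞 K) * c := by
  have key : LinearMap.range (Algebra.intTrace (𝓞 K) (𝓞 H)) ⊔ Ideal.span {(p : 𝓞 K)} = ⊤ := by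
    by_contra hne
    obtain ⟨P, hP, hle⟩ := Ideal.exists_le_maximal
      (LinearMap.range (Algebra.intTrace (𝓞 K) (𝓞 H)) ⊔ Ideal.span {(p : 𝓞 K)}) hne
    obtain ⟨Q, hQ, hQP⟩ := Ideal.exists_maximal_ideal_liesOver_of_isIntegral P (S := 𝓞 H)
    have hpP : (p : 𝓞 K) ∈ P := hle (Ideal.mem_sup_right (Ideal.mem_span_singleton_self _))
    have hpQ : (p : 𝓞 H) ∈ Q := by
      have h1 : (p : 𝓞 K) ∈ Q.under (𝓞 K) := by
        rw [← hQP.over]; exact hpP
      rw [Ideal.mem_comap, map_natCast] at h1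
      exact h1
    have htr : ∀ a : 𝓞 H, ∑ h : Gal(H/K), h • a ∈ Q := by
      intro a
      rw [← intTrace_eq]
      have h1 : Algebra.intTrace (𝓞 K) (𝓞 H) a ∈ Q.under (𝓞 K) := by
        rw [← hQP.over]
        exact hle (Ideal.mem_sup_left (LinearMap.mem_range_self _ a))
      exact h1
    haveI : Q.IsPrime := hQ.isPrime
    let f : Gal(H/K) → (𝓞 H →* 𝓞 H ⧸ Q) := fun h =>
      { toFun := fun a => Ideal.Quotient.mk Q (h • a)
        map_one' := by rw [smul_one, map_one]
        map_mul' := fun a b => by rw [smul_mul', map_mul] }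
    have hf : Function.Injective f := by
      intro g h hgh
      have h1 : h⁻¹ * g = 1 := by
        refine inertia_trivial hU (Ideal.comap (MulSemiringAction.toRingHom Gal(H/K) (𝓞 H) h) Q)
          inferInstance ?_ (h⁻¹ * g) ?_
        · rw [Ideal.mem_comap, map_natCast]
          exact hpQ
        · intro x
          rw [Ideal.mem_comap]
          have h2 : MulSemiringAction.toRingHom Gal(H/K) (𝓞 H) h ((h⁻¹ * g) • x - x) =
              g • x - h • x := by
            rw [map_sub, MulSemiringAction.toRingHom_apply, MulSemiringAction.toRingHom_apply,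
              smul_smul, mul_inv_cancel_left]
          rw [h2, ← Ideal.Quotient.eq]
          exact DFunLike.congr_fun hgh x
      have h2 := congrArg (fun y => h * y) h1
      simpa using h2
    have hlin := (linearIndependent_monoidHom (𝓞 H) (𝓞 H ⧸ Q)).comp f hf
    rw [Fintype.linearIndependent_iff] at hlin
    have h0 := hlin (fun _ => 1) (by
      funext a
      rw [Finset.sum_apply]
      simp only [Function.comp_apply, one_smul, Pi.zero_apply]
      have h3 : ∀ h : Gal(H/K), f h a = Ideal.Quotient.mk Q (h • a) := fun _ => rfl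
      simp only [h3]
      rw [← map_sum, Ideal.Quotient.eq_zero_iff_mem]
      exact htr a) 1
    exact one_ne_zero h0
  have h1 : (1 : 𝓞 K) ∈ LinearMap.range (Algebra.intTrace (𝓞 K) (𝓞 H)) ⊔
      Ideal.span {(p : 𝓞 K)} := by rw [key]; trivial
  obtain ⟨y, ⟨t, rfl⟩, z, hz, hyz⟩ := Submodule.mem_sup.1 h1
  obtain ⟨c, rfl⟩ := Ideal.mem_span_singleton'.1 hz
  refine ⟨t, -c, ?_⟩
  rw [← hyz]
  ring

/-- **Job TC.** -/
theorem tc : S_TC := by
  intro p _ K H _ _ _ _ _ _ hU
  obtain ⟨t, c, htc⟩ := trace_onto (K := K) hU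
  refine ⟨t, fun σ => ?_⟩
  have h1 : (∑ h : H ≃ₐ[K] H, h (t : H)) = 1 + (p : H) * ((algebraMap (𝓞 K) (𝓞 H) c : 𝓞 H) : H) := by
    have h2 := congrArg (fun y : 𝓞 H => (y : H)) (intTrace_eq (K := K) t)
    rw [htc] at h2
    simp only [map_add, map_mul, map_one, map_natCast, map_sum] at h2
    exact h2.symm
  rw [h1, map_add, map_one, map_mul, map_natCast, add_sub_cancel_left, norm_mul, norm_p]
  exact mul_le_of_le_one_right (by positivity) (norm_int_le σ _)

end Pool.Agent.Q261.SH
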